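import Pool.Agent.H94.CC.Stmts

/-!
# Module DIST
-/

set_option linter.unusedVariables false
set_option synthInstance.maxSize 100000

namespace SW.CC

theorem cc_dist (hch : CHAINStmt) : DISTStmt := by
  intro M _ _ κ U p v A D hU hD hp hv hmono hdense
  by_cases hv0 : ∃ j0, E j0 v
  · obtain ⟨j0, hj0⟩ := hv0
    obtain ⟨-, y0, -, -, hy0, -⟩ := hdense p j0 hp (CLe.refl p) hj0
    have hNx : Df (fun w : Fin 4 → M => E (w 0) v → D (fst (w 3)) (w 0) (snd (w 3))) := by
      have h1 : Df (fun w : Fin 4 → M => D (fst (w 3)) (w 0) (snd (w 3))) :=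
        Df.comp3 (R := fun a b c => D a b c) hD inferInstance inferInstance inferInstance
      infer_instance
    obtain ⟨pp, g, y, q, hq, hqp, hall⟩ := hch M κ U κ p A
      (fun j p u z => E j v → D (fst z) j (snd z)) hU hNx hU.ord (Sub.refl κ) hp (by
        intro j r u hj hr hrp _
        by_cases hjv : E j v
        · obtain ⟨r', y, h1, h2, h3, h4⟩ := hdense r j hr hrp hjv
          exact ⟨r', y, h1, h2, h3, fun _ => by simpa using h4⟩
        · exact ⟨r, y0, hr, CLe.refl r, hy0, fun h => absurd h hjv⟩)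
    refine ⟨q, y, hq, hqp, fun j hj => ?_⟩
    obtain ⟨-, -, -, -, h5, h6, -, h7⟩ := hall j (hv j hj)
    refine ⟨h5, ?_⟩
    have h8 := h6 hj
    rw [fst_opair, snd_opair] at h8
    exact hmono _ _ _ _ h8 hq h7
  · exact ⟨p, emp, hp, CLe.refl p, fun j hj => absurd ⟨j, hj⟩ hv0⟩

end SW.CC
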