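import Pool.Agent.H94.CC.Stmts

/-!
# Module NOG: from any limit length to length `ω`
-/

set_option linter.unusedVariables false
set_option synthInstance.maxSize 100000

namespace SW.CC

theorem cc_nog (hplf : PLFStmt) : NOGStmt := by
  intro M _ _ k J g s hg hJ hs c hc
  have hP : PlayFacts M := hplf M
  have hgo : Ord g := hg.1
  -- the natural numbers are below `g`
  have homg : ∀ n, E n (om : M) → E n g := by
    intro n hn
    refine om_ind (C := fun n : M => E n g) inferInstance ?_ ?_ n hn
    · obtain ⟨x, hx⟩ := hg.2.1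
      exact emp_mem_ord hgo (fun h => by rw [h] at hx; exact not_mem_emp _ hx)
    · intro m hm hmg
      obtain ⟨y, hy, hmy⟩ := hg.2.2 m hmg
      have h1 : Ord m := hgo.mem hmg
      have h2 : Ord y := hgo.mem hy
      have h3 := (h1.suc_sub h2 hmy)
      rcases (Ord.sub_iff (Ord_suc h1) h2).1 h3 with h4 | h4
      · exact hgo.trans hy h4
      · rw [h4]; exact hy
  -- the new play
  let c1 : M → M := fun i => sep (app c i) (fun _ : M => E i om)
  have hc1 : Fn1 c1 := by
    simp only [c1]
    infer_instance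
  have hc1om : ∀ i, E i (om : M) → c1 i = app c i := by
    intro i hi
    refine ext fun z => ?_
    simp only [c1]
    rw [mem_sep' inferInstance]
    exact ⟨fun h => h.1, fun h => ⟨h, hi⟩⟩
  have hc1n : ∀ i, ¬ E i (om : M) → c1 i = emp := by
    intro i hi
    refine eq_emp fun z hz => ?_
    simp only [c1] at hz
    rw [mem_sep' inferInstance] at hz
    exact hi hz.2
  have happ : ∀ x A, E x (om : M) → PairIn x A c → A = app c x := by
    intro x A hx hA
    obtain ⟨A0, hA0, hu, -⟩ := hc x hx
    rw [pairIn_iff] at hA0 hA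
    symm
    exact the_eq hA fun z hz => by
      rw [hu z (pairIn_iff.2 hz), hu A (pairIn_iff.2 hA)]
  have happ' : ∀ x, E x (om : M) → PairIn x (app c x) c := by
    intro x hx
    obtain ⟨A0, hA0, hu, -⟩ := hc x hx
    rw [← happ x A0 hx hA0]
    exact hA0
  have hgr : ∀ x, E x (om : M) → gr (suc x) c1 = gr (suc x) (fun i => app c i) := by
    intro x hx
    refine ext fun z => ?_
    rw [mem_gr' hc1, mem_gr' inferInstance]
    constructor
    · rintro ⟨y, hy, rfl⟩
      refine ⟨y, hy, ?_⟩
      rw [hc1om y (Ord_om.trans (suc_mem_om hx) hy)]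
    · rintro ⟨y, hy, rfl⟩
      refine ⟨y, hy, ?_⟩
      rw [hc1om y (Ord_om.trans (suc_mem_om hx) hy)]
  have hans : ∀ x Z, E x (om : M) → (Answers s (gr g c1) x Z ↔ Answers s c x Z) := by
    intro x Z hx
    rw [hP.ans c1 hc1 hgo (homg x hx), hgr x hx]
    constructor
    · intro h
      exact ⟨_, (hP.fn hc Ord_om x _ hx).2 rfl, pairIn_iff.2 h⟩
    · rintro ⟨r, hr, hrs⟩
      rw [hP.fn hc Ord_om x _ hx] at hr
      rw [hr, pairIn_iff] at hrs
      exact hrs
  have hcur : ∀ x C, E x (om : M) → (IsCurrent k s (gr g c1) x C ↔ IsCurrent k s c x C) := by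
    intro x C hx
    have h1 : ∀ i, E i x → E i (om : M) := fun i hi => Ord_om.trans hx hi
    constructor
    · intro h z
      rw [h z]
      refine and_congr_right fun _ => forall_congr' fun i => forall_congr' fun Z => ?_
      exact imp_congr_right fun hi => by rw [hans i Z (h1 i hi)]
    · intro h z
      rw [h z]
      refine and_congr_right fun _ => forall_congr' fun i => forall_congr' fun Z => ?_
      exact imp_congr_right fun hi => by rw [hans i Z (h1 i hi)]
  have hplay : IsPlay k s (gr g c1) g := by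
    intro x hx
    refine ⟨c1 x, ?_, ?_, ?_⟩
    · rw [pairIn_iff, opair_mem_gr hc1]
      exact ⟨hx, rfl⟩
    · intro A' hA'
      rw [pairIn_iff, opair_mem_gr hc1] at hA'
      exact hA'.2
    · intro C hC
      by_cases hxo : E x (om : M)
      · rw [hcur x C hxo] at hC
        obtain ⟨A0, hA0, hu, hA0C⟩ := hc x hxo
        rw [hc1om x hxo, ← happ x A0 hxo hA0]
        exact hA0C C hC
      · rw [hc1n x hxo]
        intro z hz
        exact absurd hz (not_mem_emp z)
  obtain ⟨hw1, hw2⟩ := hs _ hplay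
  constructor
  · intro x A C hx hA hC
    have hA1 : PairIn x A (gr g c1) := by
      rw [pairIn_iff, opair_mem_gr hc1]
      exact ⟨homg x hx, by rw [hc1om x hx]; exact happ x A hx hA⟩
    obtain ⟨Z, hZ, hZu, hZc⟩ := hw1 x A C (homg x hx) hA1 ((hcur x C hx).2 hC)
    refine ⟨Z, (hans x Z hx).1 hZ, fun Z' hZ' => hZu Z' ((hans x Z' hx).2 hZ'), hZc⟩
  · intro C hC hCJ
    obtain ⟨C', hC', -⟩ := hP.cur k s (gr g c1) g
    refine hw2 C' hC' (hJ C C' hCJ ?_)
    intro z hz
    rw [hC z]
    have := (hC' z).1 hz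
    exact ⟨this.1, fun i Z hi hiZ => this.2 i Z (homg i hi) ((hans i Z hi).2 hiZ)⟩

end SW.CC
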