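import Pool.Agent.H94.CC.Stmts

/-!
# Module WBD: a winning strategy for the ideal of bounded sets
-/

set_option linter.unusedVariables false
set_option synthInstance.maxSize 100000

namespace SW.CC

theorem cc_wbd (hplf : PLFStmt) (hmsf : MSFStmt) : WBDStmt := by
  intro M _ _ κ U g hU hg
  have hP : PlayFacts M := hplf M
  have hF : MFacts κ U := hmsf M κ U hU
  have hgo : Ord g := hF.ordm hg
  let ans : M → M := fun r => sep κ (fun a : M => ∀ j y : M, E (opair j y) r → (E a y ↔ E y U))
  have hans : Fn1 ans := by
    simp only [ans]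
    infer_instance
  refine ⟨gr (pow (prod g (pow κ))) ans, ?_⟩
  intro c hc
  -- the moves
  have happ : ∀ x A, E x g → PairIn x A c → A = app c x := by
    intro x A hx hA
    obtain ⟨A0, hA0, hu, -⟩ := hc x hx
    rw [pairIn_iff] at hA0 hA
    symm
    exact the_eq hA fun z hz => by
      rw [hu z (pairIn_iff.2 hz), hu A (pairIn_iff.2 hA)]
  have hsub : ∀ x, E x g → Sub (app c x) κ := by
    intro x hx
    obtain ⟨A0, hA0, hu, hA0C⟩ := hc x hx
    rw [← happ x A0 hx hA0]
    obtain ⟨C, hC, -⟩ := hP.cur κ (gr (pow (prod g (pow κ))) ans) c x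
    intro z hz
    exact ((hC z).1 (hA0C C hC z hz)).1
  have hsuc : ∀ x i, E x g → E i (suc x) → E i g := by
    intro x i hx hi
    rw [mem_suc] at hi
    rcases hi with hi | rfl
    · exact hgo.trans hx hi
    · exact hx
  -- the answers
  have hAns : ∀ x Z, E x g → (Answers (gr (pow (prod g (pow κ))) ans) c x Z ↔
      ∀ a, E a Z ↔ E a κ ∧ ∀ j, E j (suc x) → (E a (app c j) ↔ E (app c j) U)) := by
    intro x Z hx
    have h1 : E (gr (suc x) (fun i => app c i)) (pow (prod g (pow κ))) := by
      rw [mem_pow]
      intro z hz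
      rw [mem_gr' inferInstance] at hz
      obtain ⟨i, hi, rfl⟩ := hz
      rw [mem_prod, mem_pow]
      exact ⟨hsuc x i hx hi, hsub i (hsuc x i hx hi)⟩
    have h2 : ∀ a, E a (ans (gr (suc x) (fun i => app c i))) ↔
        E a κ ∧ ∀ j, E j (suc x) → (E a (app c j) ↔ E (app c j) U) := by
      intro a
      simp only [ans]
      rw [mem_sep' inferInstance]
      refine and_congr_right fun _ => ?_
      constructor
      · intro h j hj
        exact h j _ ((opair_mem_gr inferInstance).2 ⟨hj, rfl⟩)
      · intro h j y hjy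
        obtain ⟨h3, h4⟩ := (opair_mem_gr (f := fun i => app c i) inferInstance).1 hjy
        rw [h4]
        exact h j h3
    constructor
    · rintro ⟨r, hr, hrs⟩
      rw [hP.fn hc hgo x _ hx] at hr
      rw [hr, pairIn_iff, opair_mem_gr hans] at hrs
      rw [hrs.2]
      exact h2
    · intro h
      refine ⟨_, (hP.fn hc hgo x _ hx).2 rfl, ?_⟩
      rw [pairIn_iff, opair_mem_gr hans]
      refine ⟨h1, ext fun a => ?_⟩
      rw [h a, h2 a]
  -- an answer exists
  have hAex : ∀ x, E x g → ∃ Z, ∀ a, E a Z ↔ E a κ ∧
      ∀ j, E j (suc x) → (E a (app c j) ↔ E (app c j) U) := by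
    intro x hx
    exact ⟨sep κ (fun a : M => ∀ j : M, E j (suc x) → (E a (app c j) ↔ E (app c j) U)),
      fun a => mem_sep' inferInstance⟩
  -- current sets
  have hcur : ∀ x C, (E x g ∨ x = g) → IsCurrent κ (gr (pow (prod g (pow κ))) ans) c x C →
      ∀ a, E a C ↔ E a κ ∧ ∀ j, E j x → (E a (app c j) ↔ E (app c j) U) := by
    intro x C hx hC a
    have hxg : ∀ i, E i x → E i g := by
      intro i hi
      rcases hx with hx | rfl
      · exact hgo.trans hx hi
      · exact hi
    rw [hC a]
    refine and_congr_right fun haκ => ?_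
    constructor
    · intro h j hj
      obtain ⟨Z, hZ⟩ := hAex j (hxg j hj)
      have h3 := h j Z hj ((hAns j Z (hxg j hj)).2 hZ)
      rw [hZ a] at h3
      exact h3.2 j (by simp)
    · intro h i Z hi hiZ
      rw [hAns i Z (hxg i hi)] at hiZ
      rw [hiZ a]
      refine ⟨haκ, fun j hj => h j ?_⟩
      rw [mem_suc] at hj
      rcases hj with hj | rfl
      · rcases hx with hx | rfl
        · exact (hgo.mem hx).trans hi hj
        · exact hgo.trans hi hj
      · exact hi
  constructor
  · intro x A C hx hA hC
    obtain ⟨Z, hZ⟩ := hAex x hx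
    have hC' := hcur x C (Or.inl hx) hC
    have hAC : Incl A C := by
      obtain ⟨A0, hA0, hu, hA0C⟩ := hc x hx
      rw [hu A hA]
      exact hA0C C hC
    have hAa := happ x A hx hA
    have hZ' : ∀ a, E a Z ↔ E a C ∧ (E a A ↔ E A U) := by
      intro a
      rw [hZ a, hC' a, hAa]
      constructor
      · rintro ⟨h1, h2⟩
        exact ⟨⟨h1, fun j hj => h2 j (by rw [mem_suc]; exact Or.inl hj)⟩, h2 x (by simp)⟩
      · rintro ⟨⟨h1, h2⟩, h3⟩
        refine ⟨h1, fun j hj => ?_⟩
        rw [mem_suc] at hj
        rcases hj with hj | rfl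
        · exact h2 j hj
        · exact h3
    refine ⟨Z, (hAns x Z hx).2 hZ, ?_, ?_⟩
    · intro Z1 hZ1
      rw [hAns x Z1 hx] at hZ1
      exact ext fun a => by rw [hZ1 a, hZ a]
    · by_cases hAU : E A U
      · left
        refine ext fun a => ?_
        rw [hZ' a]
        constructor
        · rintro ⟨-, h⟩
          exact h.2 hAU
        · intro h
          exact ⟨hAC a h, fun _ => hAU, fun _ => h⟩
      · right
        intro a
        rw [hZ' a]
        refine and_congr_right fun _ => ?_
        constructor
        · intro h h1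
          exact hAU (h.1 h1)
        · intro h
          exact ⟨fun h1 => absurd h1 h, fun h1 => absurd h1 hAU⟩
  · intro C hC hCB
    have hC' := hcur g C (Or.inr rfl) hC
    rw [mem_BD] at hCB
    obtain ⟨-, b, hb, hCb⟩ := hCB
    let f : M → M := fun x => sep κ (fun a : M => (E a (app c x) ↔ E (app c x) U))
    have hf : Fn1 f := by
      simp only [f]
      infer_instance
    have hfm : ∀ x a, E a (f x) ↔ E a κ ∧ (E a (app c x) ↔ E (app c x) U) := by
      intro x a
      simp only [f]
      rw [mem_sep' inferInstance]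
    have hfU : ∀ x, E x g → E (f x) U := by
      intro x hx
      by_cases h1 : E (app c x) U
      · refine hU.up h1 ?_ ?_
        · intro a ha
          rw [hfm]
          exact ⟨hsub x hx a ha, fun _ => h1, fun _ => ha⟩
        · intro a ha
          rw [hfm] at ha
          exact ha.1
      · rcases hU.ult (hsub x hx) with h2 | h2
        · exact absurd h2 h1
        · refine hU.up h2 ?_ ?_
          · intro a ha
            rw [mem_diff] at ha
            rw [hfm]
            exact ⟨ha.1, fun h3 => absurd h3 ha.2, fun h3 => absurd h3 h1⟩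
          · intro a ha
            rw [hfm] at ha
            exact ha.1
    have hcmp := hU.cmp f hf hg hfU
    refine hF.nbdd hb ?_ hcmp
    intro z hz
    apply hCb
    rw [mem_sep' inferInstance] at hz
    rw [hC' z]
    exact ⟨hz.1, fun j hj => ((hfm j z).1 (hz.2 j hj)).2⟩

end SW.CC
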